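import Pool.Agent.Work.MP_7cb3ca_co.Fn.Top

namespace Pool.Agent.Results.MP_7cb3ca_co.Full

/-- Let `n ≥ 3`. The cycle `C_n` is nonrepetitively 3-choosable if and only if `n` is not one of
5, 7, 9, 10, 14, 17: for the other `n`, and only for them, every assignment of lists with at least
three colours admits a colouring from the lists such that no path on `2 m` vertices (`m ≥ 1`) has
the colour of its `i`-th vertex equal to that of its `(i + m)`-th vertex for all `i < m`. -/
theorem result (n : ℕ) (hn : 3 ≤ n) :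
    (∀ L : Fin n → Set ℕ, (∀ v, 3 ≤ (L v).encard) → ∃ c : Fin n → ℕ, (∀ v, c v ∈ L v) ∧
      ∀ (u v : Fin n) (p : (SimpleGraph.cycleGraph n).Walk u v) (m : ℕ), p.IsPath → 1 ≤ m →
        p.length + 1 = 2 * m → ¬ ∀ i < m, c (p.getVert i) = c (p.getVert (i + m))) ↔
      n ∉ ({5, 7, 9, 10, 14, 17} : Set ℕ) :=
  Pool.Agent.Work.MP_7cb3ca_co.Fn.all_of Pool.Agent.Work.MP_7cb3ca_co.Fn.inst_top n hn

end Pool.Agent.Results.MP_7cb3ca_co.Full
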